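import Pool.Agent.helper22.RG9.Spec

set_option autoImplicit false

namespace Pool.Agent.RG9

open Matrix Pool.Agent.H48SL Pool.Agent.UG

/-- the bracket of two root spaces -/
theorem LIE_c1 {n m : ℕ} {a : Fin m → Fin m → Submodule ℚ (MQ n)} (h : LGr a) {i j k : Fin m} (hij : i ≠ j) (hjk : j ≠ k) (hik : i ≠ k)
    {A B : MQ n} (hA : A ∈ a i j) (hB : B ∈ a j k) : A * B - B * A ∈ a i k := by
  rw [h.gen i j k hij hjk hik]
  exact Submodule.subset_span ⟨A, hA, B, hB, rfl⟩

theorem LIE_neg {n : ℕ} (A B : MQ n) : A * B - B * A = -(B * A - A * B) := by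
  rw [neg_sub]

theorem LIE_P {n m : ℕ} {a : Fin m → Fin m → Submodule ℚ (MQ n)} (h : LGr a) {i j k l : Fin m} (hij : i ≠ j) (hkl : k ≠ l)
    (hne : ¬ (k = j ∧ l = i)) {Z A B : MQ n} (hZ : Z ∈ a k l) (hA : A ∈ a i j) (hB : B ∈ a j i) :
    (Z * A - A * Z) * B - B * (Z * A - A * Z) ∈ a k l := by
  by_cases h1 : l = i
  · subst h1
    have hkj : k ≠ j := fun e => hne ⟨e, rfl⟩
    exact LIE_c1 h hkj hij.symm hkl (LIE_c1 h hkl hij hkj hZ hA) hB
  · by_cases h2 : k = j
    · subst h2
      have h3 := LIE_c1 h hij hkl (fun e => h1 e.symm) hA hZ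
      have h4 := LIE_c1 h hij.symm (fun e => h1 e.symm) hkl hB h3
      have e : (Z * A - A * Z) * B - B * (Z * A - A * Z) = B * (A * Z - Z * A) - (A * Z - Z * A) * B := by
        rw [LIE_neg Z A, neg_mul, mul_neg]
        abel
      rw [e]
      exact h4
    · have h3 := h.comm k l i j hkl hij h1 h2 Z hZ A hA
      rw [h3, sub_self, zero_mul, mul_zero, sub_self]
      exact Submodule.zero_mem _

theorem LIE_T1 {n m : ℕ} {a : Fin m → Fin m → Submodule ℚ (MQ n)} (h : LGr a) {i j k l : Fin m} (hij : i ≠ j) (hkl : k ≠ l)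
    (hne : ¬ (k = j ∧ l = i)) (hne' : ¬ (k = i ∧ l = j)) {Z A B : MQ n} (hZ : Z ∈ a k l) (hA : A ∈ a i j) (hB : B ∈ a j i) :
    Z * (A * B - B * A) - (A * B - B * A) * Z ∈ a k l := by
  have h1 := LIE_P h hij hkl hne hZ hA hB
  have h2 := LIE_P h hij.symm hkl hne' hZ hB hA
  have e : Z * (A * B - B * A) - (A * B - B * A) * Z =
      ((Z * A - A * Z) * B - B * (Z * A - A * Z)) - ((Z * B - B * Z) * A - A * (Z * B - B * Z)) := by
    noncomm_ring
  rw [e]
  exact Submodule.sub_mem _ h1 h2

theorem LIE_T {n m : ℕ} (hm : 3 ≤ m) {a : Fin m → Fin m → Submodule ℚ (MQ n)} (h : LGr a) {i j k l : Fin m} (hij : i ≠ j) (hkl : k ≠ l)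
    {Z A B : MQ n} (hZ : Z ∈ a k l) (hA : A ∈ a i j) (hB : B ∈ a j i) :
    Z * (A * B - B * A) - (A * B - B * A) * Z ∈ a k l := by
  by_cases hc : (k = j ∧ l = i) ∨ (k = i ∧ l = j)
  · obtain ⟨p, hpk, hpl⟩ : ∃ p : Fin m, p ≠ k ∧ p ≠ l := by
      by_contra hno
      push Not at hno
      have h1 : (Finset.univ : Finset (Fin m)) ⊆ {k, l} := by
        intro q _
        rw [Finset.mem_insert, Finset.mem_singleton]
        by_cases hq : q = k
        · exact Or.inl hq
        · exact Or.inr (hno q hq)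
      have h2 := (Finset.card_le_card h1).trans Finset.card_le_two
      rw [Finset.card_univ, Fintype.card_fin] at h2
      omega
    rw [h.gen k p l hpk.symm hpl hkl] at hZ ⊢
    rw [← h.gen k p l hpk.symm hpl hkl]
    have hn1 : ¬ (k = j ∧ p = i) := fun e => by
      rcases hc with ⟨-, c2⟩ | ⟨c1, -⟩
      · exact hpl (e.2.trans c2.symm)
      · exact hij (c1.symm.trans e.1)
    have hn2 : ¬ (k = i ∧ p = j) := fun e => by
      rcases hc with ⟨c1, -⟩ | ⟨-, c2⟩
      · exact hij (e.1.symm.trans c1)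
      · exact hpl (e.2.trans c2.symm)
    have hn3 : ¬ (p = j ∧ l = i) := fun e => by
      rcases hc with ⟨c1, -⟩ | ⟨-, c2⟩
      · exact hpk (e.1.trans c1.symm)
      · exact hij (e.2.symm.trans c2)
    have hn4 : ¬ (p = i ∧ l = j) := fun e => by
      rcases hc with ⟨-, c2⟩ | ⟨c1, -⟩
      · exact hij (c2.symm.trans e.2)
      · exact hpk (e.1.trans c1.symm)
    refine Submodule.span_induction (p := fun Z _ => Z * (A * B - B * A) - (A * B - B * A) * Z ∈ a k l) ?_ ?_ ?_ ?_ hZ
    · rintro _ ⟨U, hU, V, hV, rfl⟩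
      have h1 := LIE_T1 h hij hpk.symm hn1 hn2 hU hA hB
      have h2 := LIE_T1 h hij hpl hn3 hn4 hV hA hB
      have h3 := LIE_c1 h hpk.symm hpl hkl h1 hV
      have h4 := LIE_c1 h hpk.symm hpl hkl hU h2
      have e : (U * V - V * U) * (A * B - B * A) - (A * B - B * A) * (U * V - V * U) =
          ((U * (A * B - B * A) - (A * B - B * A) * U) * V - V * (U * (A * B - B * A) - (A * B - B * A) * U)) +
          (U * (V * (A * B - B * A) - (A * B - B * A) * V) - (V * (A * B - B * A) - (A * B - B * A) * V) * U) := by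
        generalize A * B - B * A = D
        noncomm_ring
      rw [e]
      exact Submodule.add_mem _ h3 h4
    · rw [zero_mul, mul_zero, sub_self]
      exact Submodule.zero_mem _
    · intro x y _ _ hx hy
      have e : (x + y) * (A * B - B * A) - (A * B - B * A) * (x + y) =
          (x * (A * B - B * A) - (A * B - B * A) * x) + (y * (A * B - B * A) - (A * B - B * A) * y) := by
        rw [add_mul, mul_add]
        abel
      rw [e]
      exact Submodule.add_mem _ hx hy
    · intro c x _ hx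
      have e : (c • x) * (A * B - B * A) - (A * B - B * A) * (c • x) = c • (x * (A * B - B * A) - (A * B - B * A) * x) := by
        rw [smul_mul_assoc, mul_smul_comm, smul_sub]
      rw [e]
      exact Submodule.smul_mem _ _ hx
  · push Not at hc
    exact LIE_T1 h hij hkl (fun e => hc.1 e.1 e.2) (fun e => hc.2 e.1 e.2) hZ hA hB

theorem LIE_root {n m : ℕ} (hm : 3 ≤ m) {a : Fin m → Fin m → Submodule ℚ (MQ n)} (h : LGr a) {k l : Fin m} (hkl : k ≠ l)
    {Z : MQ n} (hZ : Z ∈ a k l) {W : MQ n} (hW : W ∈ SS a) : Z * W - W * Z ∈ SS a := by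
  have hin : ∀ {i j : Fin m} {Y : MQ n}, i ≠ j → Y ∈ a i j → Y ∈ SS a := fun hij hY => Submodule.subset_span (Or.inl ⟨_, _, hij, hY⟩)
  refine Submodule.span_induction (p := fun W _ => Z * W - W * Z ∈ SS a) ?_ ?_ ?_ ?_ hW
  · rintro W (⟨i, j, hij, hW⟩ | ⟨i, j, hij, A, hA, B, hB, rfl⟩)
    · by_cases h1 : l = i
      · subst h1
        by_cases h2 : k = j
        · subst h2
          exact Submodule.subset_span (Or.inr ⟨k, l, hkl, Z, hZ, W, hW, rfl⟩)
        · exact hin h2 (LIE_c1 h hkl hij h2 hZ hW)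
      · by_cases h2 : k = j
        · subst h2
          rw [LIE_neg]
          exact Submodule.neg_mem _ (hin (fun e => h1 e.symm) (LIE_c1 h hij hkl (fun e => h1 e.symm) hW hZ))
        · rw [h.comm k l i j hkl hij h1 h2 Z hZ W hW, sub_self]
          exact Submodule.zero_mem _
    · exact hin hkl (LIE_T hm h hij hkl hZ hA hB)
  · rw [zero_mul, mul_zero, sub_self]
    exact Submodule.zero_mem _
  · intro x y _ _ hx hy
    have e : Z * (x + y) - (x + y) * Z = (Z * x - x * Z) + (Z * y - y * Z) := by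
      rw [add_mul, mul_add]
      abel
    rw [e]
    exact Submodule.add_mem _ hx hy
  · intro c x _ hx
    have e : Z * (c • x) - (c • x) * Z = c • (Z * x - x * Z) := by
      rw [smul_mul_assoc, mul_smul_comm, smul_sub]
    rw [e]
    exact Submodule.smul_mem _ _ hx

theorem LIE : LIE_stmt := by
  intro n m hm a h
  refine ⟨fun i j k l hij hkl Z hZ A hA B hB => LIE_T hm h hij hkl hZ hA hB, fun U hU V hV => ?_⟩
  refine Submodule.span_induction (p := fun U _ => U * V - V * U ∈ SS a) ?_ ?_ ?_ ?_ hU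
  · rintro U (⟨i, j, hij, hU⟩ | ⟨i, j, hij, A, hA, B, hB, rfl⟩)
    · exact LIE_root hm h hij hU hV
    · have h1 := LIE_root hm h hij hA (LIE_root hm h hij.symm hB hV)
      have h2 := LIE_root hm h hij.symm hB (LIE_root hm h hij hA hV)
      have e : (A * B - B * A) * V - V * (A * B - B * A) =
          (A * (B * V - V * B) - (B * V - V * B) * A) - (B * (A * V - V * A) - (A * V - V * A) * B) := by
        noncomm_ring
      rw [e]
      exact Submodule.sub_mem _ h1 h2
  · rw [zero_mul, mul_zero, sub_self]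
    exact Submodule.zero_mem _
  · intro x y _ _ hx hy
    have e : (x + y) * V - V * (x + y) = (x * V - V * x) + (y * V - V * y) := by
      rw [add_mul, mul_add]
      abel
    rw [e]
    exact Submodule.add_mem _ hx hy
  · intro c x _ hx
    have e : (c • x) * V - V * (c • x) = c • (x * V - V * x) := by
      rw [smul_mul_assoc, mul_smul_comm, smul_sub]
    rw [e]
    exact Submodule.smul_mem _ _ hx

end Pool.Agent.RG9
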